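import Pool.Agent.H86.AL.M39
import Pool.Agent.H86.AL.LieType

/-!
Unions of ascending series of groups of Lie type of rank `r`: all types.
-/

set_option autoImplicit false

universe u

namespace Pool.Agent.Results.MP_978914_al.AllLieTypes

open Pool.Agent.H75.UL Pool.Agent.H75.LT

/-- Let `G` be the union of an ascending series of subgroups `H 0 ≤ H 1 ≤ ⋯`, infinitely many of which
are groups of Lie type of rank `r` (untwisted, of Steinberg type or of Suzuki-Ree type), and not all
finite. Then `G` is a group of Lie type of rank `r`. -/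
theorem result (r : ℕ) (G : Type u) [Group G] (H : ℕ → Subgroup G) (hH : Monotone H)
    (hG : ∀ g : G, ∃ i, g ∈ H i) (hL : ∀ m : ℕ, ∃ i, m ≤ i ∧ IsLieTypeGroup r (H i))
    (hinf : ∃ i, Infinite (H i)) : IsLieTypeGroup r G := by
  rw [isLieTypeGroup_iff]
  refine main_LieType srt_A3 srt_D4 srt_E6 r G H hH hG (fun m => ?_) hinf
  obtain ⟨i, hi, h⟩ := hL m
  exact ⟨i, hi, (isLieTypeGroup_iff r (H i)).1 h⟩

end Pool.Agent.Results.MP_978914_al.AllLieTypes
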